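import Mathlib

/-!
Random positions: a sparse bipartite graph in which every `s` rows reach every set of `t` columns.
-/

namespace Pool.Agent.W980.KD

open Finset

/-- There are positions such that any `s` rows meet any `t` columns. -/
theorem exists_pos {m N ℓ s t : ℕ} (hsm : s ≤ m)
    (h : 2 ^ m * 2 ^ N * (N - t) ^ (s * ℓ) < N ^ (s * ℓ)) :
    ∃ pos : Fin m × Fin ℓ → Fin N, ∀ S : Finset (Fin m), S.card = s →
      ∀ B : Finset (Fin N), B.card = t → ∃ ej : Fin m × Fin ℓ, ej.1 ∈ S ∧ pos ej ∈ B := by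
  classical
  by_contra hcon
  push Not at hcon
  -- every function is bad
  have hcov : (Finset.univ : Finset (Fin m × Fin ℓ → Fin N)) ⊆
      ((Finset.univ : Finset (Fin m)).powersetCard s ×ˢ
        (Finset.univ : Finset (Fin N)).powersetCard t).biUnion (fun SB =>
          Fintype.piFinset (fun ej : Fin m × Fin ℓ => if ej.1 ∈ SB.1 then SB.2ᶜ else Finset.univ)) := by
    intro pos _
    obtain ⟨S, hS, B, hB, hbad⟩ := hcon pos
    rw [Finset.mem_biUnion]
    refine ⟨(S, B), ?_, ?_⟩
    · rw [Finset.mem_product]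
      exact ⟨Finset.mem_powersetCard.2 ⟨Finset.subset_univ _, hS⟩,
        Finset.mem_powersetCard.2 ⟨Finset.subset_univ _, hB⟩⟩
    · rw [Fintype.mem_piFinset]
      intro ej
      by_cases h1 : ej.1 ∈ S
      · simp only [h1, if_true, Finset.mem_compl]
        exact hbad ej h1
      · simp [h1]
  have hbad : ∀ SB ∈ ((Finset.univ : Finset (Fin m)).powersetCard s ×ˢ
        (Finset.univ : Finset (Fin N)).powersetCard t),
      (Fintype.piFinset (fun ej : Fin m × Fin ℓ =>
        if ej.1 ∈ SB.1 then SB.2ᶜ else (Finset.univ : Finset (Fin N)))).card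
        = (N - t) ^ (s * ℓ) * N ^ ((m - s) * ℓ) := by
    intro SB hSB
    rw [Finset.mem_product, Finset.mem_powersetCard, Finset.mem_powersetCard] at hSB
    obtain ⟨⟨_, hS⟩, ⟨_, hB⟩⟩ := hSB
    rw [Fintype.card_piFinset, Fintype.prod_prod_type]
    have h1 : ∀ e : Fin m, (∏ _j : Fin ℓ,
        (if e ∈ SB.1 then SB.2ᶜ else (Finset.univ : Finset (Fin N))).card)
        = if e ∈ SB.1 then (N - t) ^ ℓ else N ^ ℓ := by
      intro e
      rw [Finset.prod_const, Finset.card_univ, Fintype.card_fin]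
      split_ifs with h
      · rw [Finset.card_compl, Fintype.card_fin, hB]
      · rw [Finset.card_univ, Fintype.card_fin]
    simp only [h1]
    rw [Finset.prod_ite, Finset.prod_const, Finset.prod_const]
    have h2 : (Finset.univ.filter (fun e => e ∈ SB.1)) = SB.1 := by ext; simp
    have h3 : (Finset.univ.filter (fun e => e ∉ SB.1)) = SB.1ᶜ := by ext; simp
    rw [h2, h3, Finset.card_compl, Fintype.card_fin, hS, ← pow_mul, ← pow_mul, mul_comm ℓ s,
      mul_comm ℓ (m - s)]
  have h1 := Finset.card_le_card hcov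
  rw [Finset.card_univ, Fintype.card_fun, Fintype.card_prod, Fintype.card_fin, Fintype.card_fin,
    Fintype.card_fin] at h1
  have h2 := h1.trans Finset.card_biUnion_le
  rw [Finset.sum_congr rfl hbad, Finset.sum_const, smul_eq_mul, Finset.card_product,
    Finset.card_powersetCard, Finset.card_powersetCard, Finset.card_univ, Finset.card_univ,
    Fintype.card_fin, Fintype.card_fin] at h2
  have h3 : m.choose s ≤ 2 ^ m := Nat.choose_le_two_pow m s
  have h4 : N.choose t ≤ 2 ^ N := Nat.choose_le_two_pow N t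
  have h5 : N ^ (m * ℓ) = N ^ (s * ℓ) * N ^ ((m - s) * ℓ) := by
    rw [← pow_add, ← add_mul]
    congr 2
    omega
  rw [h5] at h2
  have h6 : m.choose s * N.choose t * ((N - t) ^ (s * ℓ) * N ^ ((m - s) * ℓ))
      ≤ (2 ^ m * 2 ^ N * (N - t) ^ (s * ℓ)) * N ^ ((m - s) * ℓ) := by
    calc m.choose s * N.choose t * ((N - t) ^ (s * ℓ) * N ^ ((m - s) * ℓ))
        ≤ (2 ^ m * 2 ^ N) * ((N - t) ^ (s * ℓ) * N ^ ((m - s) * ℓ)) :=
          Nat.mul_le_mul_right _ (Nat.mul_le_mul h3 h4)
      _ = _ := by ring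
  have h7 : 0 < N ^ ((m - s) * ℓ) := by
    rcases Nat.eq_zero_or_pos N with h0 | h0
    · subst h0
      by_contra hz
      have hz' : (m - s) * ℓ ≠ 0 := by
        intro h0
        rw [h0] at hz
        simp at hz
      have hℓ : ℓ ≠ 0 := by
        rintro rfl
        simp at hz'
      rcases Nat.eq_zero_or_pos s with hs | hs
      · subst hs
        simp only [Nat.zero_mul, pow_zero, mul_one] at h
        have := Nat.one_le_two_pow (n := m)
        omega
      · have : s * ℓ ≠ 0 := Nat.mul_ne_zero (by omega) hℓ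
        rw [Nat.zero_pow (Nat.pos_of_ne_zero this)] at h
        omega
    · exact Nat.pow_pos h0
  have h8 : N ^ (s * ℓ) * N ^ ((m - s) * ℓ)
      ≤ (2 ^ m * 2 ^ N * (N - t) ^ (s * ℓ)) * N ^ ((m - s) * ℓ) := h2.trans h6
  exact absurd (Nat.le_of_mul_le_mul_right h8 h7) (by omega)

end Pool.Agent.W980.KD
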