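import Mathlib
import Pool.Agent.W980.KD.Count

/-!
Random coefficients: sparse matrices over `ZMod p` all of whose medium size row combinations have
large support.
-/

namespace Pool.Agent.W980.KD

open Finset

variable {m N ℓ p : ℕ}

/-- the number of nonzero entries -/
def wt (c : Fin m → ZMod p) : ℕ := (Finset.univ.filter (fun e => c e ≠ 0)).card

/-- the entry of the combination `c` of the rows of `A` in column `β` -/
def col (A : Fin m → Fin N → ZMod p) (c : Fin m → ZMod p) (β : Fin N) : ZMod p :=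
  ∑ e, c e * A e β

/-- the matrix given by positions and coefficients -/
def mat (pos : Fin m × Fin ℓ → Fin N) (coef : Fin m × Fin ℓ → ZMod p) (e : Fin m) (β : Fin N) :
    ZMod p := ∑ j : Fin ℓ, if pos (e, j) = β then coef (e, j) else 0

lemma col_mat (pos : Fin m × Fin ℓ → Fin N) (coef : Fin m × Fin ℓ → ZMod p)
    (c : Fin m → ZMod p) (β : Fin N) :
    col (mat pos coef) c β = ∑ ej : Fin m × Fin ℓ, if pos ej = β then c ej.1 * coef ej else 0 := by
  unfold col mat
  rw [Fintype.sum_prod_type]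
  apply Finset.sum_congr rfl
  intro e _
  rw [Finset.mul_sum]
  apply Finset.sum_congr rfl
  intro j _
  split_ifs <;> simp

/-- number of coefficients for which the combination vanishes on `T` -/
lemma card_zero [Fact p.Prime] (pos : Fin m × Fin ℓ → Fin N) (c : Fin m → ZMod p)
    (T : Finset (Fin N)) (hT : ∀ β ∈ T, ∃ ej : Fin m × Fin ℓ, c ej.1 ≠ 0 ∧ pos ej = β) :
    (Finset.univ.filter (fun coef : Fin m × Fin ℓ → ZMod p =>
      ∀ β ∈ T, col (mat pos coef) c β = 0)).card * p ^ T.card ≤ p ^ (m * ℓ) := by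
  classical
  have hT' : ∀ β : T, ∃ ej : Fin m × Fin ℓ, c ej.1 ≠ 0 ∧ pos ej = β.1 := fun β => hT β.1 β.2
  choose r hr0 hr1 using hT'
  -- shift by a function on `T`
  let sh : ((Fin m × Fin ℓ → ZMod p) × (T → ZMod p)) → (Fin m × Fin ℓ → ZMod p) :=
    fun q ej => q.1 ej + ∑ β : T, if r β = ej then q.2 β else 0
  have hcol : ∀ (q : (Fin m × Fin ℓ → ZMod p) × (T → ZMod p)) (β : T),
      col (mat pos (sh q)) c β.1 = col (mat pos q.1) c β.1 + c (r β).1 * q.2 β := by
    intro q β
    rw [col_mat, col_mat]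
    have h1 : ∀ ej : Fin m × Fin ℓ, (if pos ej = β.1 then c ej.1 * sh q ej else 0)
        = (if pos ej = β.1 then c ej.1 * q.1 ej else 0)
          + ∑ γ : T, (if r γ = ej then (if pos ej = β.1 then c ej.1 * q.2 γ else 0) else 0) := by
      intro ej
      simp only [sh]
      split_ifs with h
      · rw [mul_add, Finset.mul_sum]
        congr 1
        apply Finset.sum_congr rfl
        intro γ _
        split_ifs <;> simp
      · simp
    rw [Finset.sum_congr rfl (fun ej _ => h1 ej), Finset.sum_add_distrib]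
    congr 1
    rw [Finset.sum_comm]
    have h2 : ∀ γ : T, (∑ ej : Fin m × Fin ℓ,
        (if r γ = ej then (if pos ej = β.1 then c ej.1 * q.2 γ else 0) else 0))
        = if γ = β then c (r β).1 * q.2 β else 0 := by
      intro γ
      rw [Finset.sum_ite_eq]
      simp only [Finset.mem_univ, if_true]
      rw [hr1 γ]
      by_cases h : γ = β
      · subst h; simp
      · have : γ.1 ≠ β.1 := fun h' => h (Subtype.ext h')
        simp [h, this]
    rw [Finset.sum_congr rfl (fun γ _ => h2 γ), Finset.sum_ite_eq']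
    simp
  let Z := Finset.univ.filter (fun coef : Fin m × Fin ℓ → ZMod p =>
      ∀ β ∈ T, col (mat pos coef) c β = 0)
  have hinj : Set.InjOn sh ((Z ×ˢ (Finset.univ : Finset (T → ZMod p)) : Finset _) : Set _) := by
    intro q hq q' hq' heq
    rw [Finset.mem_coe, Finset.mem_product] at hq hq'
    have hq1 := (Finset.mem_filter.1 hq.1).2
    have hq1' := (Finset.mem_filter.1 hq'.1).2
    have h2 : q.2 = q'.2 := by
      funext β
      have h3 := hcol q β
      have h4 := hcol q' β
      rw [heq, h4, hq1' β.1 β.2, hq1 β.1 β.2, zero_add, zero_add] at h3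
      exact (mul_left_cancel₀ (hr0 β) h3).symm
    have h1 : q.1 = q'.1 := by
      funext ej
      have h3 := congrFun heq ej
      simp only [sh, h2] at h3
      exact add_right_cancel h3
    exact Prod.ext h1 h2
  have h1 := Finset.card_le_card_of_injOn (t := (Finset.univ : Finset (Fin m × Fin ℓ → ZMod p)))
    sh (fun _ _ => Finset.mem_univ _) hinj
  rw [Finset.card_product, Finset.card_univ, Finset.card_univ, Fintype.card_fun, Fintype.card_fun,
    ZMod.card, Fintype.card_coe, Fintype.card_prod, Fintype.card_fin, Fintype.card_fin] at h1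
  exact h1

/-- number of vectors of small weight -/
lemma card_wt [Fact p.Prime] (r : ℕ) :
    (Finset.univ.filter (fun c : Fin m → ZMod p => wt c ≤ r)).card ≤ 2 ^ m * p ^ r := by
  classical
  have hp : 1 ≤ p := (Fact.out : p.Prime).one_lt.le
  have hsub : (Finset.univ.filter (fun c : Fin m → ZMod p => wt c ≤ r)) ⊆
      ((Finset.univ : Finset (Finset (Fin m))).filter (fun S => S.card ≤ r)).biUnion (fun S =>
        Fintype.piFinset (fun e => if e ∈ S then (Finset.univ : Finset (ZMod p)) else {0})) := by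
    intro c hc
    rw [Finset.mem_biUnion]
    refine ⟨Finset.univ.filter (fun e => c e ≠ 0), ?_, ?_⟩
    · exact Finset.mem_filter.2 ⟨Finset.mem_univ _, (Finset.mem_filter.1 hc).2⟩
    · rw [Fintype.mem_piFinset]
      intro e
      by_cases h : c e = 0
      · simp [h]
      · simp [h]
  refine (Finset.card_le_card hsub).trans (Finset.card_biUnion_le.trans ?_)
  calc ∑ S ∈ (Finset.univ : Finset (Finset (Fin m))).filter (fun S => S.card ≤ r),
        (Fintype.piFinset (fun e => if e ∈ S then (Finset.univ : Finset (ZMod p)) else {0})).card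
      ≤ ∑ S ∈ (Finset.univ : Finset (Finset (Fin m))).filter (fun S => S.card ≤ r), p ^ r := by
        apply Finset.sum_le_sum
        intro S hS
        rw [Fintype.card_piFinset]
        have h1 : ∀ e : Fin m, (if e ∈ S then (Finset.univ : Finset (ZMod p)) else {0}).card
            = if e ∈ S then p else 1 := by
          intro e
          split_ifs
          · rw [Finset.card_univ, ZMod.card]
          · simp
        simp only [h1]
        rw [Finset.prod_ite, Finset.prod_const, Finset.prod_const_one, mul_one]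
        have h2 : (Finset.univ.filter (fun e => e ∈ S)) = S := by ext; simp
        rw [h2]
        exact Nat.pow_le_pow_right hp (Finset.mem_filter.1 hS).2
    _ ≤ ∑ _S ∈ (Finset.univ : Finset (Finset (Fin m))), p ^ r :=
        Finset.sum_le_sum_of_subset (Finset.filter_subset _ _)
    _ = 2 ^ m * p ^ r := by
        rw [Finset.sum_const, smul_eq_mul, Finset.card_univ, Fintype.card_finset, Fintype.card_fin]

/-- A sparse matrix all of whose combinations of between `s` and `2 s` rows have large support. -/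
theorem exists_matrix [Fact p.Prime] {s t : ℕ} (hsm : s ≤ m) (ht : 2 * t ≤ N)
    (h : 2 ^ m * 2 ^ N * (N - t) ^ (s * ℓ) < N ^ (s * ℓ))
    (h' : 2 ^ m * p ^ (2 * s) * 2 ^ N < p ^ t) :
    ∃ A : Fin m → Fin N → ZMod p, (∀ e, ∃ T : Finset (Fin N), T.card ≤ ℓ ∧ ∀ β ∉ T, A e β = 0) ∧
      ∀ c : Fin m → ZMod p, s < wt c → wt c ≤ 2 * s → ∀ J : Finset (Fin N), J.card ≤ N - 2 * t →
        ∃ β, β ∉ J ∧ col A c β ≠ 0 := by
  classical
  obtain ⟨pos, hpos⟩ := exists_pos hsm h
  have hp : 1 ≤ p := (Fact.out : p.Prime).one_lt.le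
  -- covered columns outside J
  have hcovd : ∀ c : Fin m → ZMod p, s < wt c → ∀ J : Finset (Fin N), J.card = N - 2 * t →
      ∃ T : Finset (Fin N), T.card = t ∧ Disjoint T J ∧
        ∀ β ∈ T, ∃ ej : Fin m × Fin ℓ, c ej.1 ≠ 0 ∧ pos ej = β := by
    intro c hc J hJ
    obtain ⟨S, hS1, hS2⟩ := Finset.exists_subset_card_eq (hc.le : s ≤ (Finset.univ.filter
      (fun e => c e ≠ 0)).card)
    set Cv := Jᶜ.filter (fun β => ∃ ej : Fin m × Fin ℓ, ej.1 ∈ S ∧ pos ej = β) with hCv
    have hCvt : t ≤ Cv.card := by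
      by_contra hlt
      push Not at hlt
      have h1 := Finset.card_filter_add_card_filter_not (s := Jᶜ)
        (fun β => ∃ ej : Fin m × Fin ℓ, ej.1 ∈ S ∧ pos ej = β)
      rw [Finset.card_compl, Fintype.card_fin, hJ] at h1
      have h2 : t ≤ (Jᶜ.filter (fun β => ¬ ∃ ej : Fin m × Fin ℓ, ej.1 ∈ S ∧ pos ej = β)).card := by
        rw [← hCv] at h1
        omega
      obtain ⟨B, hB1, hB2⟩ := Finset.exists_subset_card_eq h2
      obtain ⟨ej, hej1, hej2⟩ := hpos S hS2 B hB2
      have := (Finset.mem_filter.1 (hB1 hej2)).2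
      exact this ⟨ej, hej1, rfl⟩
    obtain ⟨T, hT1, hT2⟩ := Finset.exists_subset_card_eq hCvt
    refine ⟨T, hT2, ?_, ?_⟩
    · rw [Finset.disjoint_left]
      intro β hβ hβJ
      exact (Finset.mem_compl.1 (Finset.mem_filter.1 (hT1 hβ)).1) hβJ
    · intro β hβ
      obtain ⟨ej, hej1, hej2⟩ := (Finset.mem_filter.1 (hT1 hβ)).2
      exact ⟨ej, (Finset.mem_filter.1 (hS1 hej1)).2, hej2⟩
  obtain ⟨coef, hcoef⟩ : ∃ coef : Fin m × Fin ℓ → ZMod p, ∀ c : Fin m → ZMod p, s < wt c →
      wt c ≤ 2 * s → ∀ J : Finset (Fin N), J.card = N - 2 * t →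
        ∃ β, β ∉ J ∧ col (mat pos coef) c β ≠ 0 := by
    by_contra hcon
    push Not at hcon
    have hcov : (Finset.univ : Finset (Fin m × Fin ℓ → ZMod p)) ⊆
        (((Finset.univ.filter (fun c : Fin m → ZMod p => wt c ≤ 2 * s)) ×ˢ
          (Finset.univ : Finset (Finset (Fin N)))).filter (fun cJ =>
            s < wt cJ.1 ∧ cJ.2.card = N - 2 * t)).biUnion (fun cJ =>
          Finset.univ.filter (fun coef : Fin m × Fin ℓ → ZMod p =>
            ∀ β, β ∉ cJ.2 → col (mat pos coef) cJ.1 β = 0)) := by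
      intro coef _
      obtain ⟨c, hc1, hc2, J, hJ, hz⟩ := hcon coef
      rw [Finset.mem_biUnion]
      refine ⟨(c, J), ?_, ?_⟩
      · rw [Finset.mem_filter, Finset.mem_product]
        exact ⟨⟨Finset.mem_filter.2 ⟨Finset.mem_univ _, hc2⟩, Finset.mem_univ _⟩, hc1, hJ⟩
      · exact Finset.mem_filter.2 ⟨Finset.mem_univ _, hz⟩
    have h1 := (Finset.card_le_card hcov).trans Finset.card_biUnion_le
    rw [Finset.card_univ, Fintype.card_fun, ZMod.card, Fintype.card_prod, Fintype.card_fin,
      Fintype.card_fin] at h1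
    have h2 : (∑ cJ ∈ ((Finset.univ.filter (fun c : Fin m → ZMod p => wt c ≤ 2 * s)) ×ˢ
          (Finset.univ : Finset (Finset (Fin N)))).filter (fun cJ =>
            s < wt cJ.1 ∧ cJ.2.card = N - 2 * t),
          (Finset.univ.filter (fun coef : Fin m × Fin ℓ → ZMod p =>
            ∀ β, β ∉ cJ.2 → col (mat pos coef) cJ.1 β = 0)).card) * p ^ t
        ≤ (2 ^ m * p ^ (2 * s) * 2 ^ N) * p ^ (m * ℓ) := by
      rw [Finset.sum_mul]
      calc ∑ cJ ∈ ((Finset.univ.filter (fun c : Fin m → ZMod p => wt c ≤ 2 * s)) ×ˢ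
          (Finset.univ : Finset (Finset (Fin N)))).filter (fun cJ =>
            s < wt cJ.1 ∧ cJ.2.card = N - 2 * t),
          (Finset.univ.filter (fun coef : Fin m × Fin ℓ → ZMod p =>
            ∀ β, β ∉ cJ.2 → col (mat pos coef) cJ.1 β = 0)).card * p ^ t
          ≤ ∑ cJ ∈ ((Finset.univ.filter (fun c : Fin m → ZMod p => wt c ≤ 2 * s)) ×ˢ
          (Finset.univ : Finset (Finset (Fin N)))).filter (fun cJ =>
            s < wt cJ.1 ∧ cJ.2.card = N - 2 * t), p ^ (m * ℓ) := by
            apply Finset.sum_le_sum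
            intro cJ hcJ
            obtain ⟨_, h3, h4⟩ := Finset.mem_filter.1 hcJ
            obtain ⟨T, hT1, hT2, hT3⟩ := hcovd cJ.1 h3 cJ.2 h4
            have h5 := card_zero (p := p) pos cJ.1 T hT3
            rw [hT1] at h5
            refine le_trans (Nat.mul_le_mul_right _ (Finset.card_le_card ?_)) h5
            intro coef hco
            refine Finset.mem_filter.2 ⟨Finset.mem_univ _, fun β hβ => ?_⟩
            exact (Finset.mem_filter.1 hco).2 β (Finset.disjoint_left.1 hT2 hβ)
        _ ≤ ∑ cJ ∈ ((Finset.univ.filter (fun c : Fin m → ZMod p => wt c ≤ 2 * s)) ×ˢ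
          (Finset.univ : Finset (Finset (Fin N)))), p ^ (m * ℓ) :=
            Finset.sum_le_sum_of_subset (Finset.filter_subset _ _)
        _ = ((Finset.univ.filter (fun c : Fin m → ZMod p => wt c ≤ 2 * s)).card * 2 ^ N)
              * p ^ (m * ℓ) := by
            rw [Finset.sum_const, smul_eq_mul, Finset.card_product]
            congr 2
            rw [Finset.card_univ, Fintype.card_finset, Fintype.card_fin]
        _ ≤ _ := by
            apply Nat.mul_le_mul_right
            apply Nat.mul_le_mul_right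
            exact card_wt _
    have h3 : p ^ (m * ℓ) * p ^ t ≤ (2 ^ m * p ^ (2 * s) * 2 ^ N) * p ^ (m * ℓ) :=
      (Nat.mul_le_mul_right _ h1).trans h2
    have h4 : (2 ^ m * p ^ (2 * s) * 2 ^ N) * p ^ (m * ℓ) < p ^ t * p ^ (m * ℓ) :=
      Nat.mul_lt_mul_of_pos_right h' (Nat.pow_pos hp)
    rw [mul_comm (p ^ (m * ℓ)) (p ^ t)] at h3
    omega
  refine ⟨mat pos coef, ?_, ?_⟩
  · intro e
    refine ⟨Finset.univ.image (fun j => pos (e, j)), ?_, ?_⟩
    · refine Finset.card_image_le.trans ?_
      rw [Finset.card_univ, Fintype.card_fin]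
    · intro β hβ
      unfold mat
      apply Finset.sum_eq_zero
      intro j _
      rw [if_neg]
      intro hj
      exact hβ (Finset.mem_image.2 ⟨j, Finset.mem_univ _, hj⟩)
  · intro c hc1 hc2 J hJ
    obtain ⟨J', hJ'1, hJ'2⟩ := Finset.exists_superset_card_eq hJ
      (by rw [Fintype.card_fin]; omega)
    obtain ⟨β, hβ1, hβ2⟩ := hcoef c hc1 hc2 J' hJ'2
    exact ⟨β, fun h => hβ1 (hJ'1 h), hβ2⟩

end Pool.Agent.W980.KD
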