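import Mathlib
import Pool.Agent.H538R2.SBDefs

/-!
# Resolution refutations as directed acyclic graphs, and the queries along their paths
-/

namespace Pool.Agent.W980.KD

open Pool.Agent.H538R2.SB

variable {n : ℕ}

/-- A resolution refutation of the CNF formula `F` over `n` variables (with weakening): a finite
set of clauses containing the empty clause, in which every clause either contains a clause of `F`
(`par C = none`), or follows by resolving two clauses `C₀`, `C₁` on a variable `v`, possibly
followed by weakening (`par C = some (v, C₀, C₁)`). It is acyclic: the rank decreases from a clause
to its two parents (the rank plays no other role). -/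
structure Refutation (F : Finset (Clause n)) where
  /-- the clauses of the refutation -/
  lines : Finset (Clause n)
  /-- the chosen inference of every clause -/
  par : Clause n → Option (Fin n × Clause n × Clause n)
  /-- a rank, which shows that the refutation is acyclic -/
  rk : Clause n → ℕ
  last : ∅ ∈ lines
  ax : ∀ C ∈ lines, par C = none → ∃ D ∈ F, D ⊆ C
  res : ∀ C ∈ lines, ∀ (v : Fin n) (C₀ C₁ : Clause n), par C = some (v, C₀, C₁) →
    C₀ ∈ lines ∧ C₁ ∈ lines ∧ C₀ ⊆ insert (v, true) C ∧ C₁ ⊆ insert (v, false) C ∧
      rk C₀ < rk C ∧ rk C₁ < rk C

/-- `R.Path C h W`: there is a path in the refutation which goes from the clause `C` to the clause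
`W`, from a clause to one of its two parents in every step, and `h` is the list of the variables
resolved on along the path (with repetitions). -/
inductive Refutation.Path {F : Finset (Clause n)} (R : Refutation F) :
    Clause n → List (Fin n) → Clause n → Prop where
  | nil (C : Clause n) : Refutation.Path R C [] C
  | cons (C : Clause n) (v : Fin n) (C₀ C₁ C' : Clause n) (h : List (Fin n)) (W : Clause n) :
      R.par C = some (v, C₀, C₁) → (C' = C₀ ∨ C' = C₁) → Refutation.Path R C' h W →
        Refutation.Path R C (v :: h) W

end Pool.Agent.W980.KD
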