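import Mathlib
import Pool.Agent.W980.KD.Coef
import Pool.Agent.W980.KD.PathPlay

/-!
The linear algebra of the adversary.
-/

namespace Pool.Agent.W980.KD

open Finset Pool.Agent.H538R2.SB

variable {m N p s K₀ n : ℕ}

/-- every combination of between `s` and `2 s` rows has a support of more than `K₀` columns -/
def Exp (A : Fin m → Fin N → ZMod p) (s K₀ : ℕ) : Prop :=
  ∀ c : Fin m → ZMod p, s < wt c → wt c ≤ 2 * s → ∀ J : Finset (Fin N), J.card ≤ K₀ →
    ∃ β, β ∉ J ∧ col A c β ≠ 0

/-- combinations of at most `2 s` rows supported on `J` -/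
def InL (A : Fin m → Fin N → ZMod p) (s : ℕ) (J : Finset (Fin N)) (c : Fin m → ZMod p) : Prop :=
  wt c ≤ 2 * s ∧ ∀ β, β ∉ J → col A c β = 0

lemma wt_zero : wt (0 : Fin m → ZMod p) = 0 := by
  simp [wt]

lemma wt_add_le (c d : Fin m → ZMod p) : wt (c + d) ≤ wt c + wt d := by
  unfold wt
  refine le_trans (Finset.card_le_card ?_) (Finset.card_union_le _ _)
  intro e he
  simp only [Finset.mem_filter, Finset.mem_univ, true_and, Finset.mem_union, Pi.add_apply] at he ⊢
  by_contra hcon
  push Not at hcon
  exact he (by rw [hcon.1, hcon.2, add_zero])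

lemma wt_smul_le (r : ZMod p) (c : Fin m → ZMod p) : wt (r • c) ≤ wt c := by
  unfold wt
  apply Finset.card_le_card
  intro e he
  simp only [Finset.mem_filter, Finset.mem_univ, true_and, Pi.smul_apply, smul_eq_mul] at he ⊢
  intro h
  exact he (by rw [h, mul_zero])

lemma wt_single (e : Fin m) (r : ZMod p) : wt (Pi.single e r : Fin m → ZMod p) ≤ 1 := by
  unfold wt
  rw [Finset.card_le_one]
  intro a ha b hb
  simp only [Finset.mem_filter, Finset.mem_univ, true_and] at ha hb
  have h1 : a = e := by
    by_contra h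
    exact ha (Pi.single_eq_of_ne h _)
  have h2 : b = e := by
    by_contra h
    exact hb (Pi.single_eq_of_ne h _)
  rw [h1, h2]

lemma col_add (A : Fin m → Fin N → ZMod p) (c d : Fin m → ZMod p) (β : Fin N) :
    col A (c + d) β = col A c β + col A d β := by
  unfold col
  rw [← Finset.sum_add_distrib]
  apply Finset.sum_congr rfl
  intro e _
  simp only [Pi.add_apply]
  ring

lemma col_smul (A : Fin m → Fin N → ZMod p) (r : ZMod p) (c : Fin m → ZMod p) (β : Fin N) :
    col A (r • c) β = r * col A c β := by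
  unfold col
  rw [Finset.mul_sum]
  apply Finset.sum_congr rfl
  intro e _
  simp only [Pi.smul_apply, smul_eq_mul]
  ring

lemma col_zero (A : Fin m → Fin N → ZMod p) (β : Fin N) : col A 0 β = 0 := by
  simp [col]

lemma col_single (A : Fin m → Fin N → ZMod p) (e : Fin m) (β : Fin N) :
    col A (Pi.single e 1) β = A e β := by
  unfold col
  rw [Finset.sum_eq_single e]
  · simp
  · intro b _ hb
    rw [Pi.single_eq_of_ne hb, zero_mul]
  · intro h; exact absurd (Finset.mem_univ _) h

variable {A : Fin m → Fin N → ZMod p} {J : Finset (Fin N)} {c d : Fin m → ZMod p}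

lemma InL.wt_le (hA : Exp A s K₀) (hJ : J.card ≤ K₀) (h : InL A s J c) : wt c ≤ s := by
  by_contra hlt
  push Not at hlt
  obtain ⟨β, h1, h2⟩ := hA c hlt h.1 J hJ
  exact h2 (h.2 β h1)

lemma InL.add (hA : Exp A s K₀) (hJ : J.card ≤ K₀) (h : InL A s J c) (h' : InL A s J d) :
    InL A s J (c + d) := by
  refine ⟨?_, fun β hβ => by rw [col_add, h.2 β hβ, h'.2 β hβ, add_zero]⟩
  have h1 := h.wt_le hA hJ
  have h2 := h'.wt_le hA hJ
  have h3 := wt_add_le c d
  omega

lemma InL.smul (r : ZMod p) (h : InL A s J c) : InL A s J (r • c) :=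
  ⟨(wt_smul_le r c).trans h.1, fun β hβ => by rw [col_smul, h.2 β hβ, mul_zero]⟩

lemma InL.mono {J' : Finset (Fin N)} (hJ : J' ⊆ J) (h : InL A s J' c) : InL A s J c :=
  ⟨h.1, fun β hβ => h.2 β (fun h' => hβ (hJ h'))⟩

/-- The right hand side: the system is contradictory, but it is consistent with all the small
combinations which vanish. -/
theorem exists_rhs [Fact p.Prime] (hA : Exp A s K₀) (hcount : 2 ^ m * p ^ (2 * s) < p ^ (m - N)) :
    ∃ a : Fin m → ZMod p, (∀ c, InL A s ∅ c → ∑ e, c e * a e = 0) ∧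
      ∃ c₁ : Fin m → ZMod p, (∀ β, col A c₁ β = 0) ∧ ∑ e, c₁ e * a e ≠ 0 := by
  classical
  let φ : (Fin m → ZMod p) →ₗ[ZMod p] (Fin N → ZMod p) :=
    { toFun := fun c β => col A c β
      map_add' := fun c d => by funext β; exact col_add A c d β
      map_smul' := fun r c => by funext β; exact col_smul A r c β }
  let L : Submodule (ZMod p) (Fin m → ZMod p) :=
    { carrier := {c | InL A s ∅ c}
      add_mem' := fun {c d} hc hd => InL.add hA (by simp) hc hd
      zero_mem' := ⟨by rw [wt_zero]; exact Nat.zero_le _, fun β _ => col_zero A β⟩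
      smul_mem' := fun r c hc => InL.smul r hc }
  obtain ⟨c₁, hc₁, hc₁L⟩ : ∃ c₁ ∈ LinearMap.ker φ, c₁ ∉ L := by
    by_contra hcon
    push Not at hcon
    have h1 : Nat.card (LinearMap.ker φ) ≤ 2 ^ m * p ^ (2 * s) := by
      refine le_trans ?_ (card_wt (m := m) (p := p) (2 * s))
      rw [← Fintype.card_coe, ← Nat.card_eq_fintype_card]
      refine Nat.card_le_card_of_injective (fun c : LinearMap.ker φ =>
        (⟨c.1, Finset.mem_filter.2 ⟨Finset.mem_univ _, (hcon c.1 c.2).1⟩⟩ :
          {c // c ∈ Finset.univ.filter (fun c : Fin m → ZMod p => wt c ≤ 2 * s)})) ?_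
      intro c d hcd
      exact Subtype.ext (congrArg (fun q => q.1) hcd)
    have h2 : Nat.card (LinearMap.ker φ) = p ^ Module.finrank (ZMod p) (LinearMap.ker φ) := by
      have := Module.natCard_eq_pow_finrank (K := ZMod p) (V := LinearMap.ker φ)
      rw [this, Nat.card_zmod]
    have h3 : m - N ≤ Module.finrank (ZMod p) (LinearMap.ker φ) := by
      have h4 := LinearMap.finrank_range_add_finrank_ker φ
      rw [Module.finrank_fin_fun] at h4
      have h5 : Module.finrank (ZMod p) (LinearMap.range φ) ≤ N := by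
        have := Submodule.finrank_le (LinearMap.range φ)
        rwa [Module.finrank_fin_fun] at this
      omega
    have h4 : p ^ (m - N) ≤ p ^ Module.finrank (ZMod p) (LinearMap.ker φ) :=
      Nat.pow_le_pow_right (Fact.out : p.Prime).one_lt.le h3
    omega
  obtain ⟨f, hf1, hf2⟩ := Submodule.exists_dual_map_eq_bot_of_notMem (p := L) hc₁L inferInstance
  have hf : ∀ c : Fin m → ZMod p, ∑ e, c e * f (Pi.single e 1) = f c := by
    intro c
    conv_rhs => rw [← Finset.univ_sum_single c]
    rw [map_sum]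
    apply Finset.sum_congr rfl
    intro e _
    have h1 : (Pi.single e (c e) : Fin m → ZMod p) = c e • (Pi.single e 1 : Fin m → ZMod p) := by
      rw [← Pi.single_smul]
      simp
    rw [h1, map_smul, smul_eq_mul]
  refine ⟨fun e => f (Pi.single e 1), ?_, c₁, ?_, ?_⟩
  · intro c hc
    rw [hf]
    have h1 : f c ∈ L.map f := Submodule.mem_map_of_mem (show c ∈ L from hc)
    rw [hf2] at h1
    exact (Submodule.mem_bot _).1 h1
  · intro β
    exact congrFun (LinearMap.mem_ker.1 hc₁) β
  · rw [hf]
    exact hf1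

/-- the number of ones of `x` in block `β`, modulo `p` -/
def cnt (p : ℕ) (blk : Fin n → Fin N) (x : Asg n) (β : Fin N) : ZMod p :=
  ((Finset.univ.filter (fun v => blk v = β ∧ x v = true)).card : ZMod p)

/-- The state of the adversary: `x` satisfies all small combinations supported on `J`. -/
def Good (A : Fin m → Fin N → ZMod p) (a : Fin m → ZMod p) (s : ℕ) (blk : Fin n → Fin N)
    (J : Finset (Fin N)) (x : Asg n) : Prop :=
  ∀ c, InL A s J c → ∑ β, col A c β * cnt p blk x β = ∑ e, c e * a e

variable {blk : Fin n → Fin N} {a : Fin m → ZMod p}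

lemma cnt_congr {x y : Asg n} {β : Fin N} (h : ∀ v, blk v = β → x v = y v) :
    cnt p blk x β = cnt p blk y β := by
  unfold cnt
  congr 2
  ext v
  simp only [Finset.mem_filter, Finset.mem_univ, true_and]
  constructor
  · rintro ⟨h1, h2⟩; exact ⟨h1, by rw [← h v h1]; exact h2⟩
  · rintro ⟨h1, h2⟩; exact ⟨h1, by rw [h v h1]; exact h2⟩

lemma good_mono (J J' : Finset (Fin N)) (x : Asg n) (hJ : J' ⊆ J) (h : Good A a s blk J x) :
    Good A a s blk J' x := fun c hc => h c (hc.mono hJ)

lemma good_empty (ha : ∀ c, InL A s ∅ c → ∑ e, c e * a e = 0) (x : Asg n) :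
    Good A a s blk ∅ x := by
  intro c hc
  rw [ha c hc]
  apply Finset.sum_eq_zero
  intro β _
  rw [hc.2 β (by simp), zero_mul]

/-- any residue can be realised with `p - 1` free variables -/
lemma realise [Fact p.Prime] (x : Asg n) (β : Fin N) (U : Finset (Fin n))
    (hU : ∀ v ∈ U, blk v = β) (hUc : U.card = p - 1) (r : ZMod p) :
    ∃ x' : Asg n, (∀ v, v ∉ U → x' v = x v) ∧ cnt p blk x' β = r := by
  classical
  have hp : 1 < p := (Fact.out : p.Prime).one_lt
  set q : ZMod p := ((Finset.univ.filter (fun v => (blk v = β ∧ x v = true) ∧ v ∉ U)).card : ZMod p)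
    with hq
  have hk : (r - q).val ≤ U.card := by
    have := ZMod.val_lt (r - q)
    omega
  obtain ⟨T, hT1, hT2⟩ := Finset.exists_subset_card_eq hk
  refine ⟨fun v => if v ∈ U then decide (v ∈ T) else x v, ?_, ?_⟩
  · intro v hv
    simp [hv]
  · unfold cnt
    have h1 : (Finset.univ.filter (fun v => blk v = β ∧
        (if v ∈ U then decide (v ∈ T) else x v) = true))
        = (Finset.univ.filter (fun v => (blk v = β ∧ x v = true) ∧ v ∉ U)) ∪ T := by
      ext v
      simp only [Finset.mem_filter, Finset.mem_univ, true_and, Finset.mem_union]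
      by_cases hv : v ∈ U
      · simp only [hv, if_true, decide_eq_true_eq, not_true_eq_false, and_false, false_or]
        exact ⟨fun h => h.2, fun h => ⟨hU v hv, h⟩⟩
      · simp only [hv, if_false, not_false_eq_true, and_true]
        constructor
        · intro h; exact Or.inl h
        · rintro (h | h)
          · exact h
          · exact absurd (hT1 h) hv
    have h2 : Disjoint (Finset.univ.filter (fun v => (blk v = β ∧ x v = true) ∧ v ∉ U)) T := by
      rw [Finset.disjoint_left]
      intro v hv hvT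
      exact (Finset.mem_filter.1 hv).2.2 (hT1 hvT)
    rw [h1, Finset.card_union_of_disjoint h2, Nat.cast_add, ← hq, hT2, ZMod.natCast_zmod_val]
    ring

/-- extension by one block -/
lemma good_extend [Fact p.Prime] (hA : Exp A s K₀) (x : Asg n) (J : Finset (Fin N)) (β : Fin N)
    (U : Finset (Fin n)) (hx : Good A a s blk J x) (hJ : J.card < K₀) (hβ : β ∉ J)
    (hU : ∀ v ∈ U, blk v = β) (hUc : U.card = p - 1) :
    ∃ x' : Asg n, (∀ v, v ∉ U → x' v = x v) ∧ Good A a s blk (insert β J) x' := by
  classical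
  have hJ' : (insert β J).card ≤ K₀ := by
    rw [Finset.card_insert_of_notMem hβ]; exact hJ
  by_cases hcase : ∀ c, InL A s (insert β J) c → col A c β = 0
  · refine ⟨x, fun _ _ => rfl, ?_⟩
    intro c hc
    apply hx c
    refine ⟨hc.1, fun γ hγ => ?_⟩
    by_cases h : γ = β
    · subst h; exact hcase c hc
    · exact hc.2 γ (by rw [Finset.mem_insert]; push Not; exact ⟨h, hγ⟩)
  · push Not at hcase
    obtain ⟨c₀, hc₀, hc₀β⟩ := hcase
    -- the target value
    set r : ZMod p := (∑ e, c₀ e * a e - ∑ γ ∈ Finset.univ.erase β, col A c₀ γ * cnt p blk x γ)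
      / col A c₀ β with hr
    obtain ⟨x', hx'1, hx'2⟩ := realise (p := p) x β U hU hUc r
    have hoth : ∀ γ, γ ≠ β → cnt p blk x' γ = cnt p blk x γ := by
      intro γ hγ
      apply cnt_congr
      intro v hv
      apply hx'1
      intro hvU
      exact hγ (hv ▸ hU v hvU)
    have hsplit : ∀ (c : Fin m → ZMod p) (y : Asg n), ∑ γ, col A c γ * cnt p blk y γ
        = ∑ γ ∈ Finset.univ.erase β, col A c γ * cnt p blk y γ + col A c β * cnt p blk y β :=
      fun c y => (Finset.sum_erase_add _ _ (Finset.mem_univ β)).symm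
    have hsame : ∀ c : Fin m → ZMod p, ∑ γ ∈ Finset.univ.erase β, col A c γ * cnt p blk x' γ
        = ∑ γ ∈ Finset.univ.erase β, col A c γ * cnt p blk x γ := by
      intro c
      apply Finset.sum_congr rfl
      intro γ hγ
      rw [hoth γ (Finset.ne_of_mem_erase hγ)]
    have h0 : ∑ γ, col A c₀ γ * cnt p blk x' γ = ∑ e, c₀ e * a e := by
      rw [hsplit, hsame, hx'2, hr]
      field_simp
      ring
    refine ⟨x', hx'1, ?_⟩
    intro c hc
    set lam : ZMod p := col A c β / col A c₀ β with hlam
    have hd : InL A s (insert β J) (c + (-lam) • c₀) := hc.add hA hJ' (hc₀.smul _)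
    have hdβ : col A (c + (-lam) • c₀) β = 0 := by
      rw [col_add, col_smul, hlam]
      field_simp
      ring
    have hdJ : InL A s J (c + (-lam) • c₀) := by
      refine ⟨hd.1, fun γ hγ => ?_⟩
      by_cases h : γ = β
      · subst h; exact hdβ
      · exact hd.2 γ (by rw [Finset.mem_insert]; push Not; exact ⟨h, hγ⟩)
    have h1 := hx _ hdJ
    have h2 : ∑ γ, col A (c + (-lam) • c₀) γ * cnt p blk x γ
        = ∑ γ, col A (c + (-lam) • c₀) γ * cnt p blk x' γ := by
      rw [hsplit, hsplit, hdβ, hsame]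
      simp
    rw [h2] at h1
    have h3 : ∑ γ, col A (c + (-lam) • c₀) γ * cnt p blk x' γ
        = ∑ γ, col A c γ * cnt p blk x' γ - lam * ∑ γ, col A c₀ γ * cnt p blk x' γ := by
      rw [Finset.mul_sum, ← Finset.sum_sub_distrib]
      apply Finset.sum_congr rfl
      intro γ _
      rw [col_add, col_smul]
      ring
    have h4 : ∑ e, (c + (-lam) • c₀) e * a e
        = ∑ e, c e * a e - lam * ∑ e, c₀ e * a e := by
      rw [Finset.mul_sum, ← Finset.sum_sub_distrib]
      apply Finset.sum_congr rfl
      intro e _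
      simp only [Pi.add_apply, Pi.smul_apply, smul_eq_mul]
      ring
    rw [h3, h4, h0] at h1
    exact sub_left_inj.1 h1

end Pool.Agent.W980.KD
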