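import Mathlib
import Pool.Agent.W980.KD.Lin

/-!
The finite form of the lower bound.
-/

namespace Pool.Agent.W980.KD

open Finset Pool.Agent.H538R2.SB

variable {m N p s K₀ n ℓ b g g₂ wmin t : ℕ}

/-- the formula: for every row, the clauses excluding the falsifying assignments -/
def sysCnf (p : ℕ) (blk : Fin n → Fin N) (A : Fin m → Fin N → ZMod p) (a : Fin m → ZMod p)
    (T : Fin m → Finset (Fin N)) : Finset (Clause n) :=
  (Finset.univ : Finset (Fin m)).biUnion (fun e =>
    (Finset.univ.filter (fun x : Asg n => ∑ β, A e β * cnt p blk x β ≠ a e)).image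
      (fun x => clauseOf blk (T e) (Finset.univ.filter (fun v => blk v ∈ T e ∧ x v = true))))

lemma mem_sysCnf {blk : Fin n → Fin N} {A : Fin m → Fin N → ZMod p} {a : Fin m → ZMod p}
    {T : Fin m → Finset (Fin N)} {C : Clause n} :
    C ∈ sysCnf p blk A a T ↔ ∃ e, ∃ x : Asg n, ∑ β, A e β * cnt p blk x β ≠ a e ∧
      clauseOf blk (T e) (Finset.univ.filter (fun v => blk v ∈ T e ∧ x v = true)) = C := by
  unfold sysCnf
  simp only [Finset.mem_biUnion, Finset.mem_image, Finset.mem_filter, Finset.mem_univ, true_and]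

lemma blocks_card (blk : Fin n → Fin N)
    (hb' : ∀ β, (Finset.univ.filter (fun v => blk v = β)).card ≤ b + 1) (T : Finset (Fin N)) :
    (Finset.univ.filter (fun v => blk v ∈ T)).card ≤ T.card * (b + 1) := by
  have h1 : (Finset.univ.filter (fun v => blk v ∈ T))
      ⊆ T.biUnion (fun β => Finset.univ.filter (fun v => blk v = β)) := by
    intro v hv
    rw [Finset.mem_biUnion]
    exact ⟨blk v, (Finset.mem_filter.1 hv).2, Finset.mem_filter.2 ⟨Finset.mem_univ _, rfl⟩⟩
  refine (Finset.card_le_card h1).trans (Finset.card_biUnion_le.trans ?_)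
  calc ∑ β ∈ T, (Finset.univ.filter (fun v => blk v = β)).card ≤ ∑ β ∈ T, (b + 1) :=
        Finset.sum_le_sum (fun β _ => hb' β)
    _ = _ := by rw [Finset.sum_const, smul_eq_mul]

/-- Finite form of the lower bound. -/
theorem finite_kd [Fact p.Prime] (blk : Fin n → Fin N)
    (hs : 1 ≤ s) (hsm : s ≤ m) (ht : 2 * t ≤ N) (hg : 1 ≤ g)
    (hg₂ : 2 * g₂ ≤ g) (hg₂1 : 1 ≤ g₂)
    (h : 2 ^ m * 2 ^ N * (N - t) ^ (s * ℓ) < N ^ (s * ℓ))
    (h' : 2 ^ m * p ^ (2 * s) * 2 ^ N < p ^ t)
    (hcount : 2 ^ m * p ^ (2 * s) < p ^ (m - N))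
    (hb : ∀ β, b ≤ (Finset.univ.filter (fun v => blk v = β)).card)
    (hb' : ∀ β, (Finset.univ.filter (fun v => blk v = β)).card ≤ b + 1)
    (hgb : g + (p - 1) ≤ b)
    (hW : (N - 2 * t) * (g + (p - 1)) + 2 * t * (b + 1) + wmin ≤ n) :
    ∃ F : Finset (Clause n),
      (∀ C ∈ F, C.card ≤ ℓ * (b + 1)) ∧ F.card ≤ m * 2 ^ (ℓ * (b + 1)) ∧
      (∀ x : Asg n, ∃ C ∈ F, FalseAt C x) ∧
      ∀ (R : Refutation F) (Q Vn : ℕ), (∀ (h : List (Fin n)) (W : Clause n), R.Path ∅ h W →
          ∃ V : Finset (Fin n), V.card ≤ Vn ∧ (h.filter (fun v => v ∉ V)).length ≤ Q) →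
        ∀ D : ℕ, (N - 2 * t) * (p - 1) + ((p - 1) * Q / g₂ + Vn / g₂ * (b + 1)) ≤ D →
        ∀ l : ℝ, 0 < l → l ≤ 1 →
        2 ^ wmin * l ^ D ≤ (R.lines.card : ℝ) * (1 + l) ^ n := by
  classical
  obtain ⟨A, hA1, hA2⟩ := exists_matrix (p := p) hsm ht h h'
  choose T hT1 hT2 using hA1
  have hExp : Exp A s (N - 2 * t) := hA2
  obtain ⟨a, ha1, c₁, hc₁, hc₁a⟩ := exists_rhs hExp hcount
  have hcardT : ∀ e, (Finset.univ.filter (fun v => blk v ∈ T e)).card ≤ ℓ * (b + 1) :=
    fun e => (blocks_card blk hb' (T e)).trans (Nat.mul_le_mul_right _ (hT1 e))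
  refine ⟨sysCnf p blk A a T, ?_, ?_, ?_, ?_⟩
  · intro C hC
    obtain ⟨e, x, _, rfl⟩ := mem_sysCnf.1 hC
    exact Finset.card_image_le.trans (hcardT e)
  · unfold sysCnf
    refine Finset.card_biUnion_le.trans ?_
    calc ∑ e : Fin m, ((Finset.univ.filter (fun x : Asg n => ∑ β, A e β * cnt p blk x β ≠ a e)).image
          (fun x => clauseOf blk (T e) (Finset.univ.filter (fun v => blk v ∈ T e ∧ x v = true)))).card
        ≤ ∑ _e : Fin m, 2 ^ (ℓ * (b + 1)) := by
          apply Finset.sum_le_sum
          intro e _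
          have hsub : (Finset.univ.filter (fun x : Asg n => ∑ β, A e β * cnt p blk x β ≠ a e)).image
              (fun x => clauseOf blk (T e) (Finset.univ.filter (fun v => blk v ∈ T e ∧ x v = true)))
              ⊆ (Finset.univ.filter (fun v => blk v ∈ T e)).powerset.image
                (clauseOf blk (T e)) := by
            intro C hC
            obtain ⟨x, _, rfl⟩ := Finset.mem_image.1 hC
            refine Finset.mem_image.2 ⟨_, Finset.mem_powerset.2 ?_, rfl⟩
            intro v hv
            exact Finset.mem_filter.2 ⟨Finset.mem_univ _, (Finset.mem_filter.1 hv).2.1⟩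
          refine (Finset.card_le_card hsub).trans (Finset.card_image_le.trans ?_)
          rw [Finset.card_powerset]
          exact Nat.pow_le_pow_right (by norm_num) (hcardT e)
      _ = _ := by rw [Finset.sum_const, smul_eq_mul, Finset.card_univ, Fintype.card_fin]
  · intro x
    by_contra hcon
    push Not at hcon
    have hall : ∀ e, ∑ β, A e β * cnt p blk x β = a e := by
      intro e
      by_contra hne
      exact hcon _ (mem_sysCnf.2 ⟨e, x, hne, rfl⟩)
        ((falseAt_clauseOf blk (T e) x x).2 (Agree.refl _ _ _))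
    apply hc₁a
    calc ∑ e, c₁ e * a e = ∑ e, c₁ e * ∑ β, A e β * cnt p blk x β :=
          Finset.sum_congr rfl (fun e _ => by rw [hall e])
      _ = ∑ β, col A c₁ β * cnt p blk x β := by
          unfold col
          simp only [Finset.mul_sum, Finset.sum_mul]
          rw [Finset.sum_comm]
          apply Finset.sum_congr rfl
          intro β _
          apply Finset.sum_congr rfl
          intro e _
          ring
      _ = 0 := by
          apply Finset.sum_eq_zero
          intro β _
          rw [hc₁ β, zero_mul]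
  · intro R Q Vn hR D hD l hl0 hl1
    refine path_bound (κ := p - 1) (K₀ := N - 2 * t) (B₁ := b + 1) (blk := blk)
      (Good := Good A a s blk) R hg hg₂ hg₂1 good_mono (good_empty ha1) ?_ ?_
      (fun β => hgb.trans (hb β)) hb' (Nat.sub_le _ _) ?_ hR hD hl0 hl1
    · intro C hC
      obtain ⟨e, y, hy, rfl⟩ := mem_sysCnf.1 hC
      refine ⟨T e, ?_, fun v hv => mem_cvars_clauseOf blk (T e) _ hv⟩
      intro x hx hgx
      have hag := (falseAt_clauseOf blk (T e) y x).1 hx
      apply hy
      have h1 := hgx (Pi.single e 1) ⟨(wt_single e 1).trans (by omega), fun β hβ => by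
        rw [col_single]; exact hT2 e β hβ⟩
      have h2 : ∑ e', (Pi.single e 1 : Fin m → ZMod p) e' * a e' = a e := by
        rw [Finset.sum_eq_single e]
        · simp
        · intro e' _ hne
          rw [Pi.single_eq_of_ne hne, zero_mul]
        · intro hh; exact absurd (Finset.mem_univ _) hh
      rw [h2] at h1
      rw [← h1]
      apply Finset.sum_congr rfl
      intro β _
      rw [col_single]
      by_cases hβ : β ∈ T e
      · congr 1
        apply cnt_congr
        intro v hv
        exact (hag v (by rw [hv]; exact hβ)).symm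
      · rw [hT2 e β hβ, zero_mul, zero_mul]
    · intro x J β U hx hJ hβ hU hUc
      exact good_extend hExp x J β U hx hJ hβ hU hUc
    · have : N - (N - 2 * t) = 2 * t := by omega
      rw [this]
      exact hW

end Pool.Agent.W980.KD
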