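import Mathlib
import Pool.Agent.W980.KD.Fin
import Pool.Agent.H538R2.RDFinal

/-!
Choice of the parameters.
-/

namespace Pool.Agent.W980.KD

open Finset Pool.Agent.H538R2.SB

/-- the condition for the positions -/
lemma pos_cond {N t s ℓ m : ℕ} (hN : 1 ≤ N) (htN : t ≤ N) (hm : m = 2 * N)
    (h : 3 * N ^ 2 ≤ t * (s * ℓ)) :
    2 ^ m * 2 ^ N * (N - t) ^ (s * ℓ) < N ^ (s * ℓ) := by
  subst hm
  have hNR : (0 : ℝ) < N := by exact_mod_cast hN
  have h1 : ((N : ℝ) - t) ≤ N * Real.exp (-(t / N)) := by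
    have h2 := Real.add_one_le_exp (-(t / N : ℝ))
    have h3 : (N : ℝ) * (-(t / N) + 1) ≤ N * Real.exp (-(t / N)) :=
      mul_le_mul_of_nonneg_left h2 hNR.le
    have h4 : (N : ℝ) * (-(t / N) + 1) = N - t := by
      field_simp
      ring
    linarith
  have h0 : (0 : ℝ) ≤ (N : ℝ) - t := by
    have : (t : ℝ) ≤ N := by exact_mod_cast htN
    linarith
  have h2 : ((N : ℝ) - t) ^ (s * ℓ) ≤ (N : ℝ) ^ (s * ℓ) * Real.exp (-(3 * N)) := by
    calc ((N : ℝ) - t) ^ (s * ℓ) ≤ (N * Real.exp (-(t / N))) ^ (s * ℓ) := pow_le_pow_left₀ h0 h1 _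
      _ = (N : ℝ) ^ (s * ℓ) * Real.exp (((s * ℓ : ℕ) : ℝ) * (-(t / N))) := by
          rw [mul_pow, ← Real.exp_nat_mul]
      _ ≤ _ := by
          apply mul_le_mul_of_nonneg_left _ (by positivity)
          apply Real.exp_le_exp.2
          have h3 : (3 : ℝ) * N ^ 2 ≤ t * ((s * ℓ : ℕ) : ℝ) := by exact_mod_cast h
          have h4 : (3 : ℝ) * N ≤ ((s * ℓ : ℕ) : ℝ) * (t / N) := by
            rw [mul_div_assoc', le_div_iff₀ hNR]
            nlinarith
          linarith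
  have h3 : (2 : ℝ) ^ (2 * N) * 2 ^ N < Real.exp (3 * N) := by
    have h4 : (2 : ℝ) < Real.exp 1 := by
      have := Real.exp_one_gt_d9
      linarith
    calc (2 : ℝ) ^ (2 * N) * 2 ^ N = 2 ^ (3 * N) := by
          rw [← pow_add]; congr 1; ring
      _ < (Real.exp 1) ^ (3 * N) := pow_lt_pow_left₀ h4 (by norm_num) (by omega)
      _ = Real.exp (3 * N) := by
          rw [← Real.exp_nat_mul]; congr 1; push_cast; ring
  have h5 : ((2 ^ (2 * N) * 2 ^ N * (N - t) ^ (s * ℓ) : ℕ) : ℝ) < ((N ^ (s * ℓ) : ℕ) : ℝ) := by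
    push_cast [Nat.cast_sub htN]
    have hNp : (0 : ℝ) < (N : ℝ) ^ (s * ℓ) := by positivity
    calc (2 : ℝ) ^ (2 * N) * 2 ^ N * ((N : ℝ) - t) ^ (s * ℓ)
        ≤ 2 ^ (2 * N) * 2 ^ N * ((N : ℝ) ^ (s * ℓ) * Real.exp (-(3 * N))) :=
          mul_le_mul_of_nonneg_left h2 (by positivity)
      _ = (2 ^ (2 * N) * 2 ^ N) * ((N : ℝ) ^ (s * ℓ) * Real.exp (-(3 * N))) := by ring
      _ < Real.exp (3 * N) * ((N : ℝ) ^ (s * ℓ) * Real.exp (-(3 * N))) :=
          mul_lt_mul_of_pos_right h3 (by positivity)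
      _ = (N : ℝ) ^ (s * ℓ) * (Real.exp (3 * N) * Real.exp (-(3 * N))) := by ring
      _ = (N : ℝ) ^ (s * ℓ) := by
          rw [← Real.exp_add, add_neg_cancel, Real.exp_zero, mul_one]
  exact_mod_cast h5

/-- the condition for the coefficients -/
lemma coef_cond {N t s h p : ℕ} (hN : 1 ≤ N) (hp : 2 ^ (48 * h) < p) (ht : N ≤ 8 * h * t)
    (hs : 4 * s ≤ t) :
    2 ^ (2 * N) * p ^ (2 * s) * 2 ^ N < p ^ t := by
  have hp1 : 1 ≤ p := (Nat.one_le_two_pow).trans hp.le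
  have hh : h ≠ 0 := by
    rintro rfl
    omega
  have h1 : (2 ^ (3 * N)) ^ (16 * h) < (p ^ (t - 2 * s)) ^ (16 * h) := by
    calc (2 ^ (3 * N)) ^ (16 * h) = (2 ^ (48 * h)) ^ N := by
          rw [← pow_mul, ← pow_mul]; congr 1; ring
      _ < p ^ N := Nat.pow_lt_pow_left hp (by omega)
      _ ≤ p ^ ((t - 2 * s) * (16 * h)) := by
          apply Nat.pow_le_pow_right hp1
          calc N ≤ 8 * h * t := ht
            _ ≤ 8 * h * (2 * (t - 2 * s)) := Nat.mul_le_mul_left _ (by omega)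
            _ = _ := by ring
      _ = _ := by rw [pow_mul]
  have h2 : 2 ^ (3 * N) < p ^ (t - 2 * s) := lt_of_pow_lt_pow_left₀ _ (Nat.zero_le _) h1
  calc 2 ^ (2 * N) * p ^ (2 * s) * 2 ^ N = 2 ^ (3 * N) * p ^ (2 * s) := by
        have : 2 ^ (3 * N) = 2 ^ (2 * N) * 2 ^ N := by rw [← pow_add]; congr 1; ring
        rw [this]; ring
    _ < p ^ (t - 2 * s) * p ^ (2 * s) := Nat.mul_lt_mul_of_pos_right h2 (Nat.pow_pos hp1)
    _ = p ^ t := by rw [← pow_add]; congr 1; omega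

theorem main_kd (ε : ℝ) (hε : 0 < ε) :
    ∃ M k₀ : ℕ, 0 < M ∧ ∀ k n : ℕ, k₀ ≤ k → M * k ≤ n → ∃ F : Finset (Clause n),
      (∀ C ∈ F, C.card ≤ k) ∧ F.card ≤ n * 2 ^ k ∧
      (∀ x : Asg n, ∃ C ∈ F, FalseAt C x) ∧
      ∀ R : Refutation F, (∀ (h : List (Fin n)) (W : Clause n), R.Path ∅ h W →
          ∃ V : Finset (Fin n), M * V.card ≤ n ∧ M * (h.filter (fun v => v ∉ V)).length ≤ k * n) →
        (2 : ℝ) ^ ((1 - ε) * n) < R.lines.card := by
  obtain ⟨h, hh3, hhε⟩ : ∃ h : ℕ, 3 ≤ h ∧ 7 / (h : ℝ) < ε := by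
    obtain ⟨h, hh⟩ := exists_nat_gt (7 / ε)
    refine ⟨h + 3, by omega, ?_⟩
    rw [div_lt_iff₀ hε] at hh
    have : (0 : ℝ) < ((h + 3 : ℕ) : ℝ) := by positivity
    rw [div_lt_iff₀ this]
    push_cast
    nlinarith
  obtain ⟨p, hpge, hp⟩ := Nat.exists_infinite_primes (2 ^ (48 * h) + 1)
  have : Fact p.Prime := ⟨hp⟩
  set ℓ : ℕ := 1536 * h ^ 2 with hℓ
  set κ : ℕ := p - 1 with hκ
  set L : ℕ := 2 * h with hL
  set M : ℕ := 64 * ℓ * h ^ 2 * L * (κ + 1) + 64 * h with hM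
  set k₀ : ℕ := 16 * ℓ * L * h * (κ + 1) with hk₀
  have hh2 : 1 ≤ h ^ 2 := Nat.one_le_pow _ _ (by omega)
  have hℓ1 : 1 ≤ ℓ := by omega
  have hLh : 1 ≤ L * h * (κ + 1) := Nat.mul_pos (Nat.mul_pos (by omega) (by omega)) (by omega)
  refine ⟨M, k₀, by omega, ?_⟩
  intro k n hk hn
  -- basic facts on k
  have hk1 : 16 * ℓ ≤ k := by
    calc 16 * ℓ = 16 * ℓ * 1 := by ring
      _ ≤ 16 * ℓ * (L * h * (κ + 1)) := Nat.mul_le_mul_left _ hLh
      _ = k₀ := by rw [hk₀]; ring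
      _ ≤ k := hk
  have hk0 : 0 < k := by omega
  have hM1 : 1 ≤ M := by omega
  have hkn : k ≤ n := (Nat.le_mul_of_pos_left k (by omega)).trans hn
  have hn1 : 1 ≤ n := by omega
  set N : ℕ := 2 * ℓ * n / k + 1 with hN
  have hNpos : 0 < N := Nat.succ_pos _
  have hNk1 : 2 * ℓ * n ≤ N * k := by
    have h1 := Nat.lt_mul_div_succ (2 * ℓ * n) hk0
    have h2 : k * (2 * ℓ * n / k + 1) = N * k := by rw [hN]; ring
    omega
  have hNk2 : N * k ≤ 4 * ℓ * n := by
    have h1 := Nat.mul_div_le (2 * ℓ * n) k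
    have h2 : N * k = k * (2 * ℓ * n / k) + k := by rw [hN]; ring
    have h3 : n ≤ ℓ * n := Nat.le_mul_of_pos_left n (by omega)
    have h4 : 4 * ℓ * n = 2 * ℓ * n + 2 * (ℓ * n) := by ring
    omega
  have hN64 : 64 * h ≤ N := by
    have h1 : 64 * h * k ≤ N * k := by
      calc 64 * h * k ≤ M * k := Nat.mul_le_mul_right _ (by omega)
        _ ≤ n := hn
        _ ≤ 2 * ℓ * n := Nat.le_mul_of_pos_left n (by omega)
        _ ≤ N * k := hNk1
    exact Nat.le_of_mul_le_mul_right h1 hk0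
  have h2Nn : 2 * N ≤ n := by
    have h1 : 4 * ℓ * (2 * N) ≤ 4 * ℓ * n := by
      calc 4 * ℓ * (2 * N) = N * (8 * ℓ) := by ring
        _ ≤ N * k := Nat.mul_le_mul_left _ (by omega)
        _ ≤ _ := hNk2
    exact Nat.le_of_mul_le_mul_left h1 (by omega)
  set b : ℕ := n / N with hb
  have hNb : N * b ≤ n := Nat.mul_div_le n N
  have hnb : n < N * (b + 1) := Nat.lt_mul_div_succ n hNpos
  have hkb1 : 2 * ℓ * b ≤ k := by
    have h1 : N * (2 * ℓ * b) ≤ N * k := by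
      calc N * (2 * ℓ * b) = 2 * ℓ * (N * b) := by ring
        _ ≤ 2 * ℓ * n := Nat.mul_le_mul_left _ hNb
        _ ≤ N * k := hNk1
    exact Nat.le_of_mul_le_mul_left h1 hNpos
  have hkb2 : k < 4 * ℓ * (b + 1) := by
    have h1 : n * k < n * (4 * ℓ * (b + 1)) := by
      calc n * k < (N * (b + 1)) * k := Nat.mul_lt_mul_of_pos_right hnb hk0
        _ = (N * k) * (b + 1) := by ring
        _ ≤ (4 * ℓ * n) * (b + 1) := Nat.mul_le_mul_right _ hNk2
        _ = _ := by ring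
    exact Nat.lt_of_mul_lt_mul_left h1
  have hb1 : 1 ≤ b := by
    by_contra hb0
    have hb00 : b = 0 := Nat.eq_zero_of_not_pos hb0
    rw [hb00, zero_add, mul_one] at hkb2
    have : 4 * ℓ ≤ 16 * ℓ := Nat.mul_le_mul_right _ (by norm_num)
    exact absurd (hkb2.trans_le (this.trans hk1)) (lt_irrefl _)
  have hkb3 : k < 8 * ℓ * b := by
    have h1 : 4 * ℓ * (b + 1) ≤ 4 * ℓ * (2 * b) := Nat.mul_le_mul_left _ (by omega)
    have h2 : 4 * ℓ * (2 * b) = 8 * ℓ * b := by ring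
    omega
  have hbκ : 2 * (L * h * (κ + 1)) ≤ b := by
    have h1 : 8 * ℓ * (2 * (L * h * (κ + 1))) < 8 * ℓ * b := by
      calc 8 * ℓ * (2 * (L * h * (κ + 1))) = k₀ := by rw [hk₀]; ring
        _ ≤ k := hk
        _ < _ := hkb3
    exact (Nat.lt_of_mul_lt_mul_left h1).le
  have hbh : h ≤ b := by
    have h1 : h ≤ L * h * (κ + 1) := by
      calc h = 1 * h * 1 := by ring
        _ ≤ L * h * (κ + 1) := Nat.mul_le_mul (Nat.mul_le_mul_right _ (by omega)) (by omega)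
    omega
  have hb2κ : 2 * κ ≤ b := by
    have h1 : κ + 1 ≤ L * h * (κ + 1) := Nat.le_mul_of_pos_left _ (Nat.mul_pos (by omega) (by omega))
    omega
  set g : ℕ := b / h with hg
  have hgg2 : 2 ≤ g := by
    rw [hg, Nat.le_div_iff_mul_le (by omega)]
    have h1 : h ≤ L * h * (κ + 1) := by
      calc h = 1 * h * 1 := by ring
        _ ≤ L * h * (κ + 1) := Nat.mul_le_mul (Nat.mul_le_mul_right _ (by omega)) (by omega)
    omega
  have hg1 : 1 ≤ g := by omega
  set g₂ : ℕ := g / 2 with hg₂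
  have hg₂1 : 1 ≤ g₂ := by
    rw [hg₂, Nat.le_div_iff_mul_le (by omega)]; omega
  have hg₂2 : 2 * g₂ ≤ g := Nat.mul_div_le g 2
  have hg₂3 : g ≤ 3 * g₂ := by
    have := Nat.lt_mul_div_succ g (show 0 < 2 by omega)
    omega
  have hhg : h * g ≤ b := Nat.mul_div_le b h
  have hhg2 : b ≤ 2 * h * g := by
    have h1 := Nat.lt_mul_div_succ b (show 0 < h by omega)
    have h2 : h * (b / h + 1) ≤ h * (2 * g) := Nat.mul_le_mul_left _ (by omega)
    have h3 : h * (2 * g) = 2 * h * g := by ring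
    omega
  have h2g : 2 * g ≤ b := by
    have : 2 * g ≤ h * g := Nat.mul_le_mul_right _ (by omega)
    omega
  have hgb : g + κ ≤ b := by omega
  set t : ℕ := N / (4 * h) with ht
  have ht1 : 4 * h * t ≤ N := Nat.mul_div_le N (4 * h)
  have ht16 : 16 ≤ t := by
    rw [ht, Nat.le_div_iff_mul_le (by omega)]; omega
  have ht2 : N ≤ 8 * h * t := by
    have h1 := Nat.lt_mul_div_succ N (show 0 < 4 * h by omega)
    have h2 : 4 * h * (N / (4 * h) + 1) ≤ 4 * h * (2 * t) := Nat.mul_le_mul_left _ (by omega)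
    have h3 : 4 * h * (2 * t) = 8 * h * t := by ring
    omega
  have h2tN : 2 * t ≤ N := by
    have : 2 * t ≤ 4 * h * t := Nat.mul_le_mul_right _ (by omega)
    omega
  set s : ℕ := t / 4 with hs
  have hs4 : 4 * s ≤ t := Nat.mul_div_le t 4
  have hs8 : t ≤ 8 * s := by
    have h1 := Nat.lt_mul_div_succ t (show 0 < 4 by omega)
    omega
  have hs1 : 1 ≤ s := by omega
  have hsN : N ≤ 64 * h * s := by
    calc N ≤ 8 * h * t := ht2
      _ ≤ 8 * h * (8 * s) := Nat.mul_le_mul_left _ hs8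
      _ = _ := by ring
  have hposc : 3 * N ^ 2 ≤ t * (s * ℓ) := by
    calc 3 * N ^ 2 = 3 * (N * N) := by ring
      _ ≤ 3 * ((8 * h * t) * (64 * h * s)) :=
          Nat.mul_le_mul_left _ (Nat.mul_le_mul ht2 hsN)
      _ = t * (s * ℓ) := by rw [hℓ]; ring
  have hc1 := pos_cond (m := 2 * N) (s := s) (ℓ := ℓ) hNpos (by omega : t ≤ N) rfl hposc
  have hc2 := coef_cond (N := N) (t := t) (s := s) (h := h) (p := p) hNpos (by omega) ht2 hs4
  have hp1 : 1 ≤ p := hp.one_lt.le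
  have hc3 : 2 ^ (2 * N) * p ^ (2 * s) < p ^ (2 * N - N) := by
    calc 2 ^ (2 * N) * p ^ (2 * s) ≤ 2 ^ (2 * N) * p ^ (2 * s) * 2 ^ N :=
          Nat.le_mul_of_pos_right _ (by positivity)
      _ < p ^ t := hc2
      _ ≤ p ^ (2 * N - N) := Nat.pow_le_pow_right hp1 (by omega)
  -- the total loss
  set W : ℕ := (N - 2 * t) * (g + κ) + 2 * t * (b + 1) with hW
  have hNκ : L * h * (N * κ) ≤ n := by
    have h1 : 4 * ℓ * (L * h * (N * κ)) ≤ 4 * ℓ * n := by
      calc 4 * ℓ * (L * h * (N * κ)) = N * (4 * ℓ * (L * h * κ)) := by ring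
        _ ≤ N * k := by
            apply Nat.mul_le_mul_left
            refine le_trans ?_ hk
            rw [hk₀]
            calc 4 * ℓ * (L * h * κ) ≤ 16 * ℓ * (L * h * (κ + 1)) :=
                  Nat.mul_le_mul (Nat.mul_le_mul_right _ (by omega))
                    (Nat.mul_le_mul_left _ (by omega))
              _ = _ := by ring
        _ ≤ _ := hNk2
    exact Nat.le_of_mul_le_mul_left h1 (by omega)
  have hhW : h * W ≤ 3 * n := by
    have e1 : h * ((N - 2 * t) * g) ≤ n := by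
      calc h * ((N - 2 * t) * g) = (N - 2 * t) * (h * g) := by ring
        _ ≤ N * b := Nat.mul_le_mul (Nat.sub_le _ _) hhg
        _ ≤ n := hNb
    have e2 : h * ((N - 2 * t) * κ) ≤ n := by
      calc h * ((N - 2 * t) * κ) ≤ h * (N * κ) :=
            Nat.mul_le_mul_left _ (Nat.mul_le_mul_right _ (Nat.sub_le _ _))
        _ = 1 * (h * (N * κ)) := by ring
        _ ≤ L * (h * (N * κ)) := Nat.mul_le_mul_right _ (by omega)
        _ = L * h * (N * κ) := by ring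
        _ ≤ n := hNκ
    have e3 : h * (2 * t * (b + 1)) ≤ n := by
      calc h * (2 * t * (b + 1)) ≤ h * (2 * t * (2 * b)) := by
            apply Nat.mul_le_mul_left
            apply Nat.mul_le_mul_left
            omega
        _ = (4 * h * t) * b := by ring
        _ ≤ N * b := Nat.mul_le_mul_right _ ht1
        _ ≤ n := hNb
    have e4 : h * W = h * ((N - 2 * t) * g) + h * ((N - 2 * t) * κ) + h * (2 * t * (b + 1)) := by
      rw [hW]; ring
    omega
  have hWn : W ≤ n := by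
    have h1 : 3 * W ≤ 3 * n := (Nat.mul_le_mul_right _ hh3).trans hhW
    omega
  obtain ⟨F, hF1, hF2, hF3, hF4⟩ := finite_kd (p := p) (m := 2 * N) (s := s) (ℓ := ℓ) (b := b)
    (g := g) (g₂ := g₂) (wmin := n - W) (t := t) (rblk n N hNpos) hs1 (by omega) h2tN hg1
    hg₂2 hg₂1 hc1 hc2 hc3
    (by
      intro β
      have := vars_lower (n := n) hNpos {β}
      rw [blk_card_eq]
      simpa using this)
    (by
      intro β
      have := vars_upper (n := n) hNpos {β}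
      rw [blk_card_eq]
      simpa using this)
    hgb (by rw [← hκ, ← hW]; omega)
  have hwidth : ℓ * (b + 1) ≤ k := by
    have h1 : 2 * (ℓ * (b + 1)) = 2 * ℓ * b + 2 * ℓ := by ring
    omega
  refine ⟨F, fun C hC => (hF1 C hC).trans hwidth, ?_, hF3, ?_⟩
  · refine hF2.trans (Nat.mul_le_mul h2Nn ?_)
    exact Nat.pow_le_pow_right (by norm_num) hwidth
  intro R hpath
  rw [← hκ] at hF4
  set Q : ℕ := k * n / M with hQ
  set Vn : ℕ := n / M with hVn
  have hMQ : M * Q ≤ k * n := Nat.mul_div_le _ _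
  have hMV : M * Vn ≤ n := Nat.mul_div_le _ _
  have hpath' : ∀ (h : List (Fin n)) (W : Clause n), R.Path ∅ h W →
      ∃ V : Finset (Fin n), V.card ≤ Vn ∧ (h.filter (fun v => v ∉ V)).length ≤ Q := by
    intro h W hp
    obtain ⟨V, hV1, hV2⟩ := hpath h W hp
    refine ⟨V, ?_, ?_⟩
    · rw [hVn, Nat.le_div_iff_mul_le hM1, mul_comm]; exact hV1
    · rw [hQ, Nat.le_div_iff_mul_le hM1, mul_comm]; exact hV2
  have hmain := hF4 R Q Vn hpath' _ le_rfl ((1 / 2 : ℝ) ^ L) (by positivity)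
    (pow_le_one₀ (by norm_num) (by norm_num))
  set D : ℕ := (N - 2 * t) * κ + (κ * Q / g₂ + Vn / g₂ * (b + 1)) with hD
  have hkg : k ≤ 64 * ℓ * h * g₂ := by
    calc k ≤ 8 * ℓ * b := hkb3.le
      _ ≤ 8 * ℓ * (2 * h * g) := Nat.mul_le_mul_left _ hhg2
      _ ≤ 8 * ℓ * (2 * h * (3 * g₂)) := by
          apply Nat.mul_le_mul_left
          exact Nat.mul_le_mul_left _ hg₂3
      _ = 48 * (ℓ * h * g₂) := by ring
      _ ≤ 64 * (ℓ * h * g₂) := Nat.mul_le_mul_right _ (by norm_num)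
      _ = _ := by ring
  have hLD : L * h * D ≤ 3 * n := by
    have e1 : L * h * ((N - 2 * t) * κ) ≤ n :=
      (Nat.mul_le_mul_left _ (Nat.mul_le_mul_right _ (Nat.sub_le _ _))).trans hNκ
    have e2 : L * h * (κ * Q / g₂) ≤ n := by
      have e3 : k * (L * h * (κ * Q / g₂)) ≤ k * n := by
        calc k * (L * h * (κ * Q / g₂)) ≤ (64 * ℓ * h * g₂) * (L * h * (κ * Q / g₂)) :=
              Nat.mul_le_mul_right _ hkg
          _ = (64 * ℓ * h ^ 2 * L) * (g₂ * (κ * Q / g₂)) := by ring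
          _ ≤ (64 * ℓ * h ^ 2 * L) * (κ * Q) :=
              Nat.mul_le_mul_left _ (Nat.mul_div_le _ _)
          _ = (64 * ℓ * h ^ 2 * L * κ) * Q := by ring
          _ ≤ M * Q := by
              apply Nat.mul_le_mul_right
              rw [hM]
              have : 64 * ℓ * h ^ 2 * L * κ ≤ 64 * ℓ * h ^ 2 * L * (κ + 1) :=
                Nat.mul_le_mul_left _ (by omega)
              omega
          _ ≤ k * n := hMQ
      exact Nat.le_of_mul_le_mul_left e3 hk0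
    have e4 : L * h * (Vn / g₂ * (b + 1)) ≤ n := by
      calc L * h * (Vn / g₂ * (b + 1)) ≤ L * h * (Vn / g₂ * (16 * h * g₂)) := by
            apply Nat.mul_le_mul_left
            apply Nat.mul_le_mul_left
            have h1 : 2 * h * g ≤ 2 * h * (3 * g₂) := Nat.mul_le_mul_left _ hg₂3
            have h2 : 2 * h * (3 * g₂) = 6 * (h * g₂) := by ring
            have h3 : 16 * h * g₂ = 16 * (h * g₂) := by ring
            have h4 : b ≤ 6 * (h * g₂) := by
              rw [← h2]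
              exact hhg2.trans h1
            omega
        _ = 16 * L * h ^ 2 * (g₂ * (Vn / g₂)) := by ring
        _ ≤ 16 * L * h ^ 2 * Vn := Nat.mul_le_mul_left _ (Nat.mul_div_le _ _)
        _ ≤ M * Vn := by
            apply Nat.mul_le_mul_right
            rw [hM]
            have : 16 * L * h ^ 2 ≤ 64 * ℓ * h ^ 2 * L * (κ + 1) := by
              calc 16 * L * h ^ 2 = 16 * 1 * h ^ 2 * L * 1 := by ring
                _ ≤ 64 * ℓ * h ^ 2 * L * (κ + 1) := by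
                    apply Nat.mul_le_mul _ (by omega)
                    apply Nat.mul_le_mul_right
                    apply Nat.mul_le_mul_right
                    exact Nat.mul_le_mul (by norm_num) hℓ1
            exact this.trans (Nat.le_add_right _ _)
        _ ≤ n := hMV
    have e3 : L * h * D = L * h * ((N - 2 * t) * κ) + L * h * (κ * Q / g₂)
        + L * h * (Vn / g₂ * (b + 1)) := by rw [hD]; ring
    omega
  -- real arithmetic
  have hhR : (0 : ℝ) < h := by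
    have : 0 < h := by omega
    exact_mod_cast this
  have hnR : (0 : ℝ) < n := by exact_mod_cast hn1
  have r1 : (W : ℝ) ≤ 3 * n / h := by
    rw [le_div_iff₀ hhR, mul_comm]
    exact_mod_cast hhW
  have r2 : ((L * D : ℕ) : ℝ) ≤ 3 * n / h := by
    rw [le_div_iff₀ hhR]
    have : L * D * h ≤ 3 * n := by
      calc L * D * h = L * h * D := by ring
        _ ≤ _ := hLD
    exact_mod_cast this
  have r3 : (1 + (1 / 2 : ℝ) ^ L) ^ n ≤ (2 : ℝ) ^ ((n : ℝ) / h) := by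
    have e1 : (1 + (1 / 2 : ℝ) ^ L) ≤ Real.exp ((1 / 2 : ℝ) ^ L) := by
      have := Real.add_one_le_exp ((1 / 2 : ℝ) ^ L)
      linarith
    have e2 : Real.exp 1 ≤ (2 : ℝ) ^ (2 : ℝ) := by
      have h1 := Real.exp_one_lt_d9
      have h2 : (2 : ℝ) ^ (2 : ℝ) = 4 := by
        rw [show (2 : ℝ) = ((2 : ℕ) : ℝ) by norm_num, Real.rpow_natCast]; norm_num
      rw [h2]; linarith
    have e3 : (2 * h : ℝ) * (1 / 2 : ℝ) ^ L ≤ 1 := by
      have e4 : 2 * h ≤ 2 ^ (2 * h) := Nat.lt_two_pow_self.le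
      have e5 : (2 * h : ℝ) ≤ 2 ^ L := by
        rw [hL]
        exact_mod_cast e4
      rw [one_div, inv_pow, ← div_eq_mul_inv, div_le_one (by positivity)]
      exact e5
    calc (1 + (1 / 2 : ℝ) ^ L) ^ n ≤ (Real.exp ((1 / 2 : ℝ) ^ L)) ^ n :=
          pow_le_pow_left₀ (by positivity) e1 _
      _ = Real.exp (1 * (n * (1 / 2 : ℝ) ^ L)) := by rw [← Real.exp_nat_mul, one_mul]
      _ = (Real.exp 1) ^ (n * (1 / 2 : ℝ) ^ L) := by rw [Real.exp_mul]
      _ ≤ ((2 : ℝ) ^ (2 : ℝ)) ^ (n * (1 / 2 : ℝ) ^ L) :=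
          Real.rpow_le_rpow (Real.exp_pos 1).le e2 (by positivity)
      _ = (2 : ℝ) ^ (2 * (n * (1 / 2 : ℝ) ^ L)) := by rw [← Real.rpow_mul (by norm_num)]
      _ ≤ _ := by
          apply Real.rpow_le_rpow_of_exponent_le (by norm_num)
          rw [le_div_iff₀ hhR]
          calc 2 * ((n : ℝ) * (1 / 2 : ℝ) ^ L) * h = n * ((2 * h : ℝ) * (1 / 2 : ℝ) ^ L) := by ring
            _ ≤ n * 1 := mul_le_mul_of_nonneg_left e3 hnR.le
            _ = n := mul_one _
  have r4 : (2 : ℝ) ^ (n - W) * ((1 / 2 : ℝ) ^ L) ^ D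
      = (2 : ℝ) ^ ((n : ℝ) - W - ((L * D : ℕ) : ℝ)) := by
    rw [Real.rpow_sub (by norm_num), Real.rpow_natCast, ← Nat.cast_sub hWn, Real.rpow_natCast,
      ← pow_mul, one_div, inv_pow, ← div_eq_mul_inv]
  rw [r4] at hmain
  have r5 : (2 : ℝ) ^ ((1 - ε) * n) * (2 : ℝ) ^ ((n : ℝ) / h)
      < (2 : ℝ) ^ ((n : ℝ) - W - ((L * D : ℕ) : ℝ)) := by
    rw [← Real.rpow_add (by norm_num)]
    apply Real.rpow_lt_rpow_of_exponent_lt (by norm_num)
    have e1 : 7 / (h : ℝ) * n < ε * n := mul_lt_mul_of_pos_right hhε hnR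
    have e2 : 7 / (h : ℝ) * n = 3 * n / h + 3 * n / h + n / h := by ring
    linarith
  have hpos : (0 : ℝ) < (2 : ℝ) ^ ((n : ℝ) / h) := by positivity
  have r6 : (2 : ℝ) ^ ((1 - ε) * n) * (2 : ℝ) ^ ((n : ℝ) / h)
      < (R.lines.card : ℝ) * (2 : ℝ) ^ ((n : ℝ) / h) := by
    calc _ < _ := r5
      _ ≤ _ := hmain
      _ ≤ _ := mul_le_mul_of_nonneg_left r3 (by positivity)
  exact lt_of_mul_lt_mul_right r6 hpos.le

end Pool.Agent.W980.KD
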